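import Pool.Agent.H92.OD.Targets
import Pool.Agent.H66.VG.G1

/-!
# DER: derivations with prescribed value at a transcendental element
-/

set_option autoImplicit false

namespace Pool.Agent.H13.OD

open MvPolynomial Filter Pool.Agent.H92.OD

theorem pf_DER : T_DER := by
  intro k F _ _ _ _ s hs
  classical
  have h1 : AlgebraicIndepOn k id ({s} : Set F) :=
    (algebraicIndependent_singleton_iff (⟨s, rfl⟩ : ({s} : Set F))).2 hs
  obtain ⟨t, ht, hb⟩ := exists_isTranscendenceBasis_superset h1
  have hst : s ∈ t := ht rfl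
  obtain ⟨D, hD⟩ := Pool.Agent.H66.VG.g1 k F t ((↑) : t → F) hb (fun _ => 1)
  exact ⟨D, hD ⟨s, hst⟩⟩

end Pool.Agent.H13.OD
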