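import Pool.Agent.H92.OD.Targets

/-!
# STD: the elements of `k(u, y, D y)` have standard order
-/

set_option autoImplicit false

namespace Pool.Agent.H13.OD

open MvPolynomial Filter Pool.Agent.H92.OD

theorem pf_STD (h1 : T_TRD) (h2 : T_BLR) : T_STD := by
  intro k _ _ _ 𝒰 y s Q hS g hg hg0
  have hQ : evD DG (ug 𝒰 k) Q (gm y) = 0 := by
    rw [evD_gm, gm_eq_zero_iff]
    exact hS.sol
  have hu : ug 𝒰 k ∈ EE DG (ug 𝒰 k) (gm y) :=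
    IntermediateField.subset_adjoin k _ (by simp)
  obtain ⟨R, hR0, hR⟩ := h1 k (Gm 𝒰 (HS k)) DG (ug 𝒰 k) (gm y) ⟨Q, hS.nz, hQ⟩ (ug 𝒰 k) hu g hg
    (DG g) (hS.dcl g hg)
  obtain ⟨f, rfl⟩ := exists_gm g
  have h3 : evD DG (ug 𝒰 k) R (gm f) = 0 := hR
  rw [evD_gm, gm_eq_zero_iff] at h3
  have h4 := gm_ne_zero_iff.1 hg0
  obtain ⟨F, hF⟩ := h2 k R hR0
  have h5 : ∀ᶠ j in (𝒰 : Filter ℕ), ∃ r ∈ (F : Set ℚ), IsO (f j) r := by
    filter_upwards [h3, h4] with j ha hb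
    obtain ⟨r, hr⟩ := exists_IsO hb
    exact ⟨r, hF _ _ hr ha, hr⟩
  obtain ⟨r, -, hr⟩ := (Ultrafilter.eventually_exists_mem_iff F.finite_toSet).1 h5
  exact ⟨r, StO_gm.2 hr⟩

end Pool.Agent.H13.OD
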