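import Pool.Agent.H39.OD.Targets

/-!
Row CGI of the board odp_modules (`MP_397744_co`): congruent polyhedra have the same edge lengths,
diagonals and degrees.
-/

set_option autoImplicit false

namespace Pool.Agent.H13.OD

open Pool.Agent.H57.CP Pool.Agent.H39.TO Pool.Agent.H39.OD

theorem ELs_map (g : Equiv.Perm H3) (hg : IsIso g) (K : Geo) : ELs (mapG g K) = ELs K := by
  ext d
  constructor
  · rintro ⟨_, ⟨e, he, rfl⟩, _, ⟨x, hx, rfl⟩, _, ⟨y, hy, rfl⟩, hxy, rfl⟩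
    exact ⟨e, he, x, hx, y, hy, fun h => hxy (by rw [h]), hg x y⟩
  · rintro ⟨e, he, x, hx, y, hy, hxy, rfl⟩
    exact ⟨g '' e, ⟨e, he, rfl⟩, g x, ⟨x, hx, rfl⟩, g y, ⟨y, hy, rfl⟩,
      fun h => hxy (g.injective h), (hg x y).symm⟩

theorem pair_mem (g : Equiv.Perm H3) (f : Set (Set H3)) (x y : H3) :
    ({g x, g y} : Set H3) ∈ (Set.image g) '' f ↔ ({x, y} : Set H3) ∈ f := by
  rw [← Set.image_pair]
  exact (Set.image_injective.2 g.injective).mem_set_image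

theorem DLs_map (g : Equiv.Perm H3) (hg : IsIso g) (K : Geo) : DLs (mapG g K) = DLs K := by
  ext d
  constructor
  · rintro ⟨_, ⟨f, hf, rfl⟩, x', y', z', hxz, h1, h2, rfl⟩
    obtain ⟨x, rfl⟩ := g.surjective x'
    obtain ⟨y, rfl⟩ := g.surjective y'
    obtain ⟨z, rfl⟩ := g.surjective z'
    exact ⟨f, hf, x, y, z, fun h => hxz (by rw [h]), (pair_mem g f y x).1 h1,
      (pair_mem g f y z).1 h2, hg x z⟩
  · rintro ⟨f, hf, x, y, z, hxz, h1, h2, rfl⟩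
    exact ⟨(Set.image g) '' f, ⟨f, hf, rfl⟩, g x, g y, g z, fun h => hxz (g.injective h),
      (pair_mem g f y x).2 h1, (pair_mem g f y z).2 h2, (hg x z).symm⟩

theorem eds_map (g : Equiv.Perm H3) (K : Geo) (x : H3) :
    eds (mapG g K) (g x) = (Set.image g) '' eds K x := by
  ext e
  constructor
  · rintro ⟨⟨e0, he0, rfl⟩, hx⟩
    exact ⟨e0, ⟨he0, g.injective.mem_set_image.1 hx⟩, rfl⟩
  · rintro ⟨e0, ⟨he0, hx⟩, rfl⟩
    exact ⟨⟨e0, he0, rfl⟩, ⟨x, hx, rfl⟩⟩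

theorem DG_map (g : Equiv.Perm H3) (K : Geo) : DG (mapG g K) = DG K := by
  have h : ∀ x, (eds (mapG g K) (g x)).encard = (eds K x).encard := by
    intro x
    rw [eds_map]
    exact (Set.image_injective.2 g.injective).encard_image _
  ext n
  constructor
  · rintro ⟨_, ⟨x, hx, rfl⟩, rfl⟩
    exact ⟨x, hx, (h x).symm⟩
  · rintro ⟨x, hx, rfl⟩
    exact ⟨g x, ⟨x, hx, rfl⟩, h x⟩

theorem pf_CGI : T_CGI := by
  rintro K K' ⟨g, hg, rfl⟩
  exact ⟨(ELs_map g hg K).symm, (DLs_map g hg K).symm, (DG_map g K).symm⟩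

end Pool.Agent.H13.OD
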