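import Pool.Agent.H39.OD.Targets

/-!
Row CJW of the board odp_modules (`MP_397744_co`): the image of a Wythoff polyhedron under an
isometry.
-/

set_option autoImplicit false

namespace Pool.Agent.H13.OD

open Pool.Agent.H57.CP Pool.Agent.H39.TO Pool.Agent.H39.OD

/-- conjugation of a generated subgroup -/
theorem clos (g : Equiv.Perm H3) (s : Set (Equiv.Perm H3)) (h : Equiv.Perm H3) :
    h ∈ Subgroup.closure ((fun k => g * k * g⁻¹) '' s) ↔
      ∃ k ∈ Subgroup.closure s, g * k * g⁻¹ = h := by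
  have e : (fun k : Equiv.Perm H3 => g * k * g⁻¹) '' s =
      ((MulAut.conj g).toMonoidHom : Equiv.Perm H3 →* Equiv.Perm H3) '' s := rfl
  rw [e, ← MonoidHom.map_closure, Subgroup.mem_map]
  exact Iff.rfl

theorem conj_image (g k : Equiv.Perm H3) (S : Set H3) :
    (g * k * g⁻¹) '' (g '' S) = g '' (k '' S) := by
  rw [Set.image_image, Set.image_image]
  refine Set.image_congr fun x _ => ?_
  simp [Equiv.Perm.mul_apply]

theorem fcw_conj (g a b : Equiv.Perm H3) (e : Set H3) :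
    fcw (g * a * g⁻¹) (g * b * g⁻¹) (g '' e) = (Set.image g) '' fcw a b e := by
  have h2 : ({g * a * g⁻¹, g * b * g⁻¹} : Set (Equiv.Perm H3)) =
      (fun k => g * k * g⁻¹) '' {a, b} := by rw [Set.image_pair]
  unfold fcw
  rw [h2]
  ext x
  constructor
  · rintro ⟨k, hk, rfl⟩
    obtain ⟨k0, hk0, rfl⟩ := (clos g _ k).1 hk
    exact ⟨k0 '' e, ⟨k0, hk0, rfl⟩, (conj_image g k0 e).symm⟩
  · rintro ⟨_, ⟨k0, hk0, rfl⟩, rfl⟩
    exact ⟨g * k0 * g⁻¹, (clos g _ _).2 ⟨k0, hk0, rfl⟩, (conj_image g k0 e).symm⟩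

theorem conj_image2 (g k : Equiv.Perm H3) (S : Set (Set H3)) :
    (Set.image (g * k * g⁻¹)) '' ((Set.image g) '' S) =
      (Set.image g) '' ((Set.image k) '' S) := by
  rw [Set.image_image, Set.image_image]
  exact Set.image_congr fun x _ => conj_image g k x

theorem mapG_Wy (g r a b : Equiv.Perm H3) (v : H3) :
    mapG g (Wy v r a b) = Wy (g v) (g * r * g⁻¹) (g * a * g⁻¹) (g * b * g⁻¹) := by
  have h3 : ({g * r * g⁻¹, g * a * g⁻¹, g * b * g⁻¹} : Set (Equiv.Perm H3)) =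
      (fun k => g * k * g⁻¹) '' {r, a, b} := by rw [Set.image_insert_eq, Set.image_pair]
  have he : ({g v, (g * r * g⁻¹) (g v)} : Set H3) = g '' {v, r v} := by
    rw [Set.image_pair]
    simp [Equiv.Perm.mul_apply]
  have hv : ∀ k : Equiv.Perm H3, (g * k * g⁻¹) (g v) = g (k v) := by
    intro k
    simp [Equiv.Perm.mul_apply]
  unfold mapG Wy
  rw [he, h3, fcw_conj, fcw_conj]
  congr 1
  · ext x
    constructor
    · rintro ⟨_, ⟨k, hk, rfl⟩, rfl⟩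
      exact ⟨g * k * g⁻¹, (clos g _ _).2 ⟨k, hk, rfl⟩, (hv k).symm⟩
    · rintro ⟨k, hk, rfl⟩
      obtain ⟨k0, hk0, rfl⟩ := (clos g _ k).1 hk
      exact ⟨k0 v, ⟨k0, hk0, rfl⟩, (hv k0).symm⟩
  · ext x
    constructor
    · rintro ⟨_, ⟨k, hk, rfl⟩, rfl⟩
      exact ⟨g * k * g⁻¹, (clos g _ _).2 ⟨k, hk, rfl⟩, (conj_image g k _).symm⟩
    · rintro ⟨k, hk, rfl⟩
      obtain ⟨k0, hk0, rfl⟩ := (clos g _ k).1 hk
      exact ⟨k0 '' {v, r v}, ⟨k0, hk0, rfl⟩, (conj_image g k0 _).symm⟩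
  · ext x
    constructor
    · rintro ⟨_, ⟨k, hk, h⟩, rfl⟩
      refine ⟨g * k * g⁻¹, (clos g _ _).2 ⟨k, hk, rfl⟩, ?_⟩
      rw [conj_image2, conj_image2]
      exact h.imp (fun h => by rw [h]) fun h => by rw [h]
    · rintro ⟨k, hk, h⟩
      obtain ⟨k0, hk0, rfl⟩ := (clos g _ k).1 hk
      rw [conj_image2, conj_image2] at h
      rcases h with h | h
      · exact ⟨_, ⟨k0, hk0, Or.inl rfl⟩, h.symm⟩
      · exact ⟨_, ⟨k0, hk0, Or.inr rfl⟩, h.symm⟩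

theorem rf_conj (h1 : T_RFX) (g : Equiv.Perm H3) (G : V4 →ₗ[ℝ] V4) (n : V4) (hE : Ext G g)
    (hL : Lor G) (hn : mk n n = -1) : g * rf n * g⁻¹ = rf (G n) := by
  refine (h1 (G n) (by rw [hL.1, hn])).2.2.2.2.2 _ fun x => ?_
  obtain ⟨y, rfl⟩ := g.surjective x
  have e1 : (g * rf n * g⁻¹) (g y) = g (rf n y) := by simp [Equiv.Perm.mul_apply]
  rw [e1, ← hE, (h1 n hn).1 y, ← hE]
  have e2 : refl n y.1 = y.1 + (2 * mk n y.1) • n := by
    ext i
    simp [Pool.Agent.H57.CP.refl]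
  have e3 : refl (G n) (G y.1) = G y.1 + (2 * mk (G n) (G y.1)) • G n := by
    ext i
    simp [Pool.Agent.H57.CP.refl]
  rw [e2, e3, map_add, map_smul, hL.1]

theorem pf_CJW (h1 : T_RFX) : T_CJW := by
  intro g G v n0 n1 n2 _ hE hL h0 h1' h2
  rw [mapG_Wy, rf_conj h1 g G n0 hE hL h0, rf_conj h1 g G n1 hE hL h1',
    rf_conj h1 g G n2 hE hL h2]

end Pool.Agent.H13.OD
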